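import Mathlib

set_option autoImplicit false

namespace Pool.Agent.H.MP_349fe0_an

open Ordinal Set Filter Topology

/-- a family of real functions parametrised continuously (pointwise) by the ordinals up to ω^h -/
def Rep {Z : Type} (h : ℕ) (F : Set (Z → ℝ)) : Prop :=
  ∃ π : Ordinal.{0} → Z → ℝ, (∀ z, Continuous fun a => π a z) ∧ (∀ a, π a ∈ F) ∧
    ∀ f ∈ F, ∃ a : Ordinal.{0}, 0 < a ∧ a ≤ ω ^ (h : Ordinal.{0}) ∧ π a = f

theorem rep_single {Z : Type} (h : ℕ) (f : Z → ℝ) : Rep h {f} := by
  refine ⟨fun _ => f, fun z => continuous_const, fun _ => rfl, ?_⟩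
  intro g hg
  exact ⟨ω ^ (h : Ordinal.{0}), opow_pos _ omega0_pos, le_rfl, hg.symm⟩

theorem cont_sub (c : Ordinal.{0}) : Continuous fun a : Ordinal.{0} => a - c := by
  rw [OrderTopology.continuous_iff]
  intro b
  constructor
  · have : (fun a : Ordinal.{0} => a - c) ⁻¹' Ioi b = Ioi (c + b) := by
      ext a; simp only [mem_preimage, mem_Ioi]; exact lt_sub
    rw [this]; exact isOpen_Ioi
  · rcases eq_or_ne b 0 with rfl | hb
    · have : (fun a : Ordinal.{0} => a - c) ⁻¹' Iio 0 = ∅ := by
        ext a; simp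
      rw [this]; exact isOpen_empty
    · have : (fun a : Ordinal.{0} => a - c) ⁻¹' Iio b = Iio (c + b) := by
        ext a; simp only [mem_preimage, mem_Iio]
        constructor
        · intro h
          by_contra h'
          push Not at h'
          have h2 : c ≤ a := le_trans le_self_add h'
          exact absurd ((sub_lt_of_le h2).1 h) (not_lt.2 h')
        · intro h; exact sub_lt_of_lt_add h (pos_iff_ne_zero.2 hb)
      rw [this]; exact isOpen_Iio

theorem open_Iic (c : Ordinal.{0}) : IsOpen (Iic c) := by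
  have : Iic c = Iio (Order.succ c) := by ext a; simp
  rw [this]; exact isOpen_Iio

theorem rep_step_nat {Z : Type} (h : ℕ) (f0 : Z → ℝ) (F : ℕ → Set (Z → ℝ))
    (hF : ∀ n, Rep h (F n))
    (hfin : ∀ z δ, 0 < δ → ∃ N, ∀ n, N ≤ n → ∀ f ∈ F n, |f z - f0 z| < δ) :
    Rep (h + 1) {f | f = f0 ∨ ∃ n, f ∈ F n} := by
  classical
  choose π hc hm hs using hF
  set W : Ordinal.{0} := ω ^ (h : Ordinal.{0}) with hW
  have hWpos : 0 < W := opow_pos _ omega0_pos
  have hmono : ∀ k n : ℕ, k ≤ n → W * (k : Ordinal.{0}) ≤ W * (n : Ordinal.{0}) := by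
    intro k n hkn
    exact mul_le_mul_right (Nat.cast_le.2 hkn) W
  let Q : Ordinal.{0} → ℕ → Prop := fun a n => a ≤ W * ((n + 1 : ℕ) : Ordinal.{0})
  let p : Ordinal.{0} → Z → ℝ := fun a =>
    if H : ∃ n, Q a n then π (Nat.find H) (a - W * ((Nat.find H : ℕ) : Ordinal.{0})) else f0
  have hp : ∀ a (n : ℕ), Q a n → (n = 0 ∨ W * (n : Ordinal.{0}) < a) →
      p a = π n (a - W * (n : Ordinal.{0})) := by
    intro a n h1 h2
    have H : ∃ n, Q a n := ⟨n, h1⟩
    have : Nat.find H = n := by
      rw [Nat.find_eq_iff]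
      refine ⟨h1, fun k hk hq => ?_⟩
      rcases h2 with h2 | h2
      · omega
      · exact absurd (le_trans hq (hmono _ _ hk)) (not_le.2 h2)
    simp only [p, dif_pos H, this]
  have htop : ∀ n : ℕ, W * (n : Ordinal.{0}) < ω ^ ((h + 1 : ℕ) : Ordinal.{0}) := by
    intro n
    rw [Nat.cast_succ, opow_add, opow_one]
    exact mul_lt_mul_of_pos_left (natCast_lt_omega0 n) hWpos
  refine ⟨p, ?_, ?_, ?_⟩
  · intro z
    rw [continuous_iff_continuousAt]
    intro a
    by_cases H : ∃ n, Q a n
    · have h1 := Nat.find_spec H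
      set n := Nat.find H with hn
      have h2 : n = 0 ∨ W * (n : Ordinal.{0}) < a := by
        rcases Nat.eq_zero_or_pos n with h0 | h0
        · exact Or.inl h0
        · right
          have := Nat.find_min H (m := n - 1) (by omega)
          simp only [Q, not_le] at this
          rwa [Nat.sub_add_cancel h0] at this
      have hev : ∀ᶠ b in 𝓝 a, Q b n ∧ (n = 0 ∨ W * (n : Ordinal.{0}) < b) := by
        refine Eventually.and ((open_Iic _).mem_nhds h1) ?_
        rcases h2 with h2 | h2
        · exact Eventually.of_forall fun _ => Or.inl h2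
        · exact (isOpen_Ioi.mem_nhds h2 : Ioi _ ∈ 𝓝 a) |> fun hh =>
            Filter.mem_of_superset hh fun b hb => Or.inr hb
      have hcont : ContinuousAt (fun b => π n (b - W * (n : Ordinal.{0})) z) a :=
        ((hc n z).comp (cont_sub _)).continuousAt
      refine hcont.congr (hev.mono fun b hb => ?_)
      simp only [hp b n hb.1 hb.2]
    · have hpa : p a = f0 := by simp only [p, dif_neg H]
      rw [Metric.continuousAt_iff']
      intro δ hδ
      obtain ⟨N, hN⟩ := hfin z δ hδ
      have h3 : W * ((N + 1 : ℕ) : Ordinal.{0}) < a := by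
        by_contra h4
        exact H ⟨N, not_lt.1 h4⟩
      refine Filter.mem_of_superset (isOpen_Ioi.mem_nhds h3) fun b hb => ?_
      simp only [mem_setOf_eq, hpa, Real.dist_eq]
      by_cases H' : ∃ n, Q b n
      · simp only [p, dif_pos H']
        refine hN _ ?_ _ (hm _ _)
        by_contra h5
        have h6 := Nat.find_spec H'
        exact absurd (le_trans h6 (hmono _ _ (by omega))) (not_le.2 hb)
      · simp only [p, dif_neg H']
        simpa using hδ
  · intro a
    by_cases H : ∃ n, Q a n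
    · simp only [p, dif_pos H]
      exact Or.inr ⟨_, hm _ _⟩
    · simp only [p, dif_neg H]
      exact Or.inl rfl
  · rintro f (rfl | ⟨n, hf⟩)
    · refine ⟨ω ^ ((h + 1 : ℕ) : Ordinal.{0}), opow_pos _ omega0_pos, le_rfl, ?_⟩
      have H : ¬ ∃ n, Q (ω ^ ((h + 1 : ℕ) : Ordinal.{0})) n := by
        rintro ⟨n, hn⟩
        exact absurd hn (not_le.2 (htop _))
      simp only [p, dif_neg H]
    · obtain ⟨a, ha0, ha1, ha2⟩ := hs n f hf
      have hq : Q (W * (n : Ordinal.{0}) + a) n := by
        simp only [Q]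
        rw [Nat.cast_succ, mul_add, mul_one]
        exact add_le_add_right ha1 _
      refine ⟨W * (n : Ordinal.{0}) + a, lt_of_lt_of_le ha0 le_add_self, ?_, ?_⟩
      · exact le_trans hq (htop _).le
      · rw [hp _ n hq (Or.inr (lt_add_of_pos_right _ ha0)), Ordinal.add_sub_cancel, ha2]

theorem rep_step {Z P : Type} [Countable P] (h : ℕ) (f0 : Z → ℝ) (C : P → Prop)
    (F : P → Set (Z → ℝ)) (hF : ∀ p, C p → Rep h (F p))
    (hfin : ∀ z δ, 0 < δ → {p | C p ∧ ∃ f ∈ F p, δ ≤ |f z - f0 z|}.Finite) :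
    Rep (h + 1) {f | f = f0 ∨ ∃ p, C p ∧ f ∈ F p} := by
  classical
  obtain ⟨e, he⟩ := Countable.exists_injective_nat P
  let F' : ℕ → Set (Z → ℝ) := fun n =>
    if H : ∃ p, C p ∧ e p = n then F H.choose else {f0}
  have key := rep_step_nat h f0 F' ?_ ?_
  · have : {f | f = f0 ∨ ∃ n, f ∈ F' n} = {f | f = f0 ∨ ∃ p, C p ∧ f ∈ F p} := by
      ext f
      simp only [mem_setOf_eq]
      constructor
      · rintro (h1 | ⟨n, hn⟩)
        · exact Or.inl h1
        · by_cases H : ∃ p, C p ∧ e p = n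
          · simp only [F', dif_pos H] at hn
            exact Or.inr ⟨_, H.choose_spec.1, hn⟩
          · simp only [F', dif_neg H] at hn
            exact Or.inl hn
      · rintro (h1 | ⟨p, hp, hf⟩)
        · exact Or.inl h1
        · right
          have H : ∃ q, C q ∧ e q = e p := ⟨p, hp, rfl⟩
          refine ⟨e p, ?_⟩
          simp only [F', dif_pos H]
          rwa [he H.choose_spec.2]
    rwa [this] at key
  · intro n
    by_cases H : ∃ p, C p ∧ e p = n
    · simp only [F', dif_pos H]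
      exact hF _ H.choose_spec.1
    · simp only [F', dif_neg H]
      exact rep_single _ _
  · intro z δ hδ
    obtain ⟨N, hN⟩ := ((hfin z δ hδ).image e).bddAbove
    refine ⟨N + 1, fun n hn f hf => ?_⟩
    by_cases H : ∃ p, C p ∧ e p = n
    · simp only [F', dif_pos H] at hf
      by_contra h1
      have := hN ⟨H.choose, ⟨H.choose_spec.1, f, hf, not_lt.1 h1⟩, rfl⟩
      rw [H.choose_spec.2] at this
      omega
    · simp only [F', dif_neg H] at hf
      rw [mem_singleton_iff.1 hf]; simpa using hδ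

theorem Rep.image {Z : Type} {h : ℕ} {F : Set (Z → ℝ)} (hF : Rep h F) (c : Z → ℝ → ℝ)
    (hc : ∀ z, Continuous (c z)) : Rep h ((fun f z => c z (f z)) '' F) := by
  obtain ⟨π, h1, h2, h3⟩ := hF
  refine ⟨fun a z => c z (π a z), fun z => (hc z).comp (h1 z), fun a => ⟨π a, h2 a, rfl⟩, ?_⟩
  rintro _ ⟨f, hf, rfl⟩
  obtain ⟨a, ha0, ha1, ha2⟩ := h3 f hf
  exact ⟨a, ha0, ha1, by simp only [ha2]⟩

end Pool.Agent.H.MP_349fe0_an
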