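import Pool.Agent.H.MP_349fe0_an.Op
import Pool.Agent.H.MP_349fe0_an.Ord

set_option autoImplicit false

namespace Pool.Agent.H.MP_349fe0_an

open Set Filter Topology Finset

noncomputable def mu (β : ℝ) (i : ℕ) : ℝ := β / 2 ^ (i + 1)

noncomputable def XX (β : ℝ) (l : List (ℤ × ℤ)) (i : ℕ) : ℝ := mu β i * ((l.getD i 0).1 : ℝ)

noncomputable def YY (β : ℝ) (l : List (ℤ × ℤ)) (i : ℕ) : ℝ := mu β i * ((l.getD i 0).2 : ℝ)

def Child (β c : ℝ) (l0 l : List (ℤ × ℤ)) : Prop :=
  l0.length < l.length ∧ (∀ i < l0.length, l.getD i 0 = l0.getD i 0) ∧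
    dd l.length (XX β l) (YY β l) ≤ c

noncomputable def opl (β : ℝ) (l : List (ℤ × ℤ)) (g : Z → ℝ) : Z → ℝ :=
  op (l.length - 1) (XX β l) (YY β l) g

def Fam (β c : ℝ) : ℕ → (Z → ℝ) → List (ℤ × ℤ) → Set (Z → ℝ)
  | 0, g, _ => {g}
  | j + 1, g, l0 => {f | f = g ∨ ∃ l, Child β c l0 l ∧ f ∈ Fam β c j (opl β l g) l}

variable {β c : ℝ}

theorem Child.len {l0 l : List (ℤ × ℤ)} (h : Child β c l0 l) : l.length - 1 + 1 = l.length := by
  have := h.1; omega

theorem Child.bound {l0 l : List (ℤ × ℤ)} (h : Child β c l0 l) {g : Z → ℝ} (hg : Lip g) {M : ℝ}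
    (hM : ∀ z, |g z| ≤ M) (z : Z) : |opl β l g z| ≤ M + c :=
  op_bound hg hM (by rw [h.len]; exact h.2.2) z

theorem Child.far {l0 l : List (ℤ × ℤ)} (h : Child β c l0 l) {g : Z → ℝ} (hg : Lip g) {M : ℝ}
    (hM : ∀ z, |g z| ≤ M) (z : Z) (hX : 2 * M + c ≤ dd l.length z (XX β l))
    (hY : 2 * M + c ≤ dd l.length z (YY β l)) : opl β l g z = g z :=
  op_far (c := c) hg hM (by rw [h.len]; exact h.2.2) z (by rw [h.len]; exact hX) (by rw [h.len]; exact hY)

theorem opl_lip {g : Z → ℝ} (l : List (ℤ × ℤ)) (hg : Lip g) : Lip (opl β l g) := op_lip hg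

theorem Child.ddX {l0 l : List (ℤ × ℤ)} (h : Child β c l0 l) (z : Z) :
    dd l0.length z (XX β l0) ≤ dd l.length z (XX β l) := by
  refine le_trans (le_of_eq ?_) (dd_mono h.1.le _ _)
  exact dd_congr (fun _ _ => rfl) fun i hi => by simp only [XX, h.2.1 i hi]

theorem Child.ddY {l0 l : List (ℤ × ℤ)} (h : Child β c l0 l) (z : Z) :
    dd l0.length z (YY β l0) ≤ dd l.length z (YY β l) := by
  refine le_trans (le_of_eq ?_) (dd_mono h.1.le _ _)
  exact dd_congr (fun _ _ => rfl) fun i hi => by simp only [YY, h.2.1 i hi]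

theorem fam_self (j : ℕ) (g : Z → ℝ) (l0 : List (ℤ × ℤ)) : g ∈ Fam β c j g l0 := by
  cases j with
  | zero => exact rfl
  | succ j => exact Or.inl rfl

theorem fam_lip (hc : 0 ≤ c) (j : ℕ) : ∀ (g : Z → ℝ) (l0 : List (ℤ × ℤ)) (M : ℝ), Lip g →
    (∀ z, |g z| ≤ M) → ∀ f ∈ Fam β c j g l0, Lip f ∧ ∀ z, |f z| ≤ M + j * c := by
  induction j with
  | zero =>
    intro g l0 M hg hM f hf
    rw [mem_singleton_iff.1 hf]
    exact ⟨hg, fun z => by simpa using hM z⟩
  | succ j ih =>
    rintro g l0 M hg hM f (rfl | ⟨l, hl, hf⟩)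
    · refine ⟨hg, fun z => le_trans (hM z) ?_⟩
      have : 0 ≤ ((j + 1 : ℕ) : ℝ) * c := by positivity
      linarith
    · obtain ⟨h1, h2⟩ := ih _ l (M + c) (opl_lip _ hg) (hl.bound hg hM) f hf
      refine ⟨h1, fun z => le_trans (h2 z) (le_of_eq ?_)⟩
      push_cast; ring

theorem fam_close (j : ℕ) : ∀ (g : Z → ℝ) (l0 : List (ℤ × ℤ)), Lip g →
    ∀ f ∈ Fam β c j g l0, ∀ z, |f z - g z| ≤ 2 * j * T l0.length z := by
  induction j with
  | zero =>
    intro g l0 hg f hf z
    rw [mem_singleton_iff.1 hf]; simp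
  | succ j ih =>
    rintro g l0 hg f (rfl | ⟨l, hl, hf⟩) z
    · have := T_nonneg l0.length z
      rw [sub_self, abs_zero]; positivity
    · have h1 := ih _ l (opl_lip _ hg) f hf z
      have h2 : |opl β l g z - g z| ≤ 2 * T (l.length - 1) z := op_close hg z
      have h3 := T_anti hl.1.le z
      have h4 : T (l.length - 1) z ≤ T l0.length z := T_anti (by have := hl.1; omega) z
      have h5 := abs_sub_le (f z) (opl β l g z) (g z)
      have h6 : 2 * (j : ℝ) * T l.length z ≤ 2 * j * T l0.length z :=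
        mul_le_mul_of_nonneg_left h3 (by positivity)
      push_cast
      linarith

theorem fam_far (hc : 0 ≤ c) (j : ℕ) : ∀ (g : Z → ℝ) (l0 : List (ℤ × ℤ)) (M : ℝ), Lip g →
    (∀ z, |g z| ≤ M) → ∀ f ∈ Fam β c j g l0, ∀ z : Z,
      2 * (M + j * c) ≤ dd l0.length z (XX β l0) → 2 * (M + j * c) ≤ dd l0.length z (YY β l0) →
      f z = g z := by
  induction j with
  | zero =>
    intro g l0 M hg hM f hf z _ _
    rw [mem_singleton_iff.1 hf]
  | succ j ih =>
    rintro g l0 M hg hM f (rfl | ⟨l, hl, hf⟩) z hX hY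
    · rfl
    · have h1 := hl.ddX z
      have h2 := hl.ddY z
      have h3 : 0 ≤ (j : ℝ) * c := by positivity
      push_cast at hX hY
      rw [ih _ l (M + c) (opl_lip _ hg) (hl.bound hg hM) f hf z (by linarith) (by linarith)]
      exact hl.far hg hM z (by linarith) (by linarith)

theorem finite_lists (N : ℕ) (R : ℤ) :
    {l : List (ℤ × ℤ) | l.length ≤ N ∧ ∀ i < l.length,
      |(l.getD i 0).1| ≤ R ∧ |(l.getD i 0).2| ≤ R}.Finite := by
  let S : Set (ℤ × ℤ) := Set.Icc (-R) R ×ˢ Set.Icc (-R) R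
  have hS : S.Finite := (Set.finite_Icc _ _).prod (Set.finite_Icc _ _)
  have : Finite S := hS
  refine ((List.finite_length_le S N).image (List.map Subtype.val)).subset ?_
  rintro l ⟨h1, h2⟩
  have h3 : ∀ x ∈ l, x ∈ S := by
    intro x hx
    obtain ⟨i, hi, rfl⟩ := List.getElem_of_mem hx
    have := h2 i hi
    rw [List.getD_eq_getElem _ _ hi] at this
    exact ⟨abs_le.1 this.1, abs_le.1 this.2⟩
  lift l to List S using h3
  exact ⟨l, by simpa using h1, rfl⟩

theorem entry_bound (hβ : 0 < β) {B : ℝ} {N i : ℕ} (hi : i < N) {a : ℤ}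
    (h : |mu β i * (a : ℝ)| ≤ B) : |a| ≤ ⌈B * 2 ^ N / β⌉ := by
  have h1 : ((|a| : ℤ) : ℝ) ≤ B * 2 ^ N / β := by
    rw [le_div_iff₀ hβ]
    have hm : 0 < mu β i := by rw [mu]; positivity
    rw [abs_mul, abs_of_pos hm, mu, div_mul_eq_mul_div, div_le_iff₀ (by positivity)] at h
    have h2 : (2 : ℝ) ^ (i + 1) ≤ 2 ^ N := pow_le_pow_right₀ (by norm_num) hi
    have h3 : 0 ≤ B := by
      by_contra h4
      have : B * 2 ^ (i + 1) < 0 := mul_neg_of_neg_of_pos (not_le.1 h4) (by positivity)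
      have : 0 ≤ β * |(a : ℝ)| := by positivity
      linarith
    have h5 := mul_le_mul_of_nonneg_left h2 h3
    push_cast
    linarith
  exact_mod_cast le_trans h1 (Int.le_ceil _)

theorem single_le_dd {m i : ℕ} (hi : i < m) (X Y : ℕ → ℝ) : |X i - Y i| ≤ dd m X Y :=
  single_le_sum (f := fun i => |X i - Y i|) (fun _ _ => abs_nonneg _) (mem_range.2 hi)

theorem fam_rep (hβ : 0 < β) (hc : 0 ≤ c) (j : ℕ) : ∀ (g : Z → ℝ) (l0 : List (ℤ × ℤ)) (M : ℝ),
    Lip g → (∀ z, |g z| ≤ M) → Rep j (Fam β c j g l0) := by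
  induction j with
  | zero => intro g l0 M _ _; exact rep_single _ _
  | succ j ih =>
    intro g l0 M hg hM
    refine rep_step j g (Child β c l0) (fun l => Fam β c j (opl β l g) l)
      (fun l hl => ih _ l (M + c) (opl_lip _ hg) (hl.bound hg hM)) ?_
    intro z δ hδ
    have hj : (0 : ℝ) < 2 * (j + 1) := by positivity
    obtain ⟨N, hN⟩ := (((T_tendsto z).eventually (gt_mem_nhds (div_pos hδ hj))).exists)
    rw [lt_div_iff₀ hj] at hN
    refine (finite_lists N ⌈(‖z‖ + 2 * (M + c + j * c) + c) * 2 ^ N / β⌉).subset ?_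
    rintro l ⟨hl, f, hf, hd⟩
    have hlen : l.length ≤ N := by
      by_contra h0
      have h1 := fam_close j _ l (opl_lip _ hg) f hf z
      have h2 : |opl β l g z - g z| ≤ 2 * T (l.length - 1) z := op_close hg z
      have h3 : T l.length z ≤ T N z := T_anti (by omega) z
      have h4 : T (l.length - 1) z ≤ T N z := T_anti (by omega) z
      have h5 := abs_sub_le (f z) (opl β l g z) (g z)
      have h6 : 2 * (j : ℝ) * T l.length z ≤ 2 * j * T N z :=
        mul_le_mul_of_nonneg_left h3 (by positivity)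
      linarith
    have hM0 : 0 ≤ M := le_trans (abs_nonneg _) (hM z)
    have hjc : 0 ≤ (j : ℝ) * c := by positivity
    have hnear : dd l.length z (XX β l) ≤ 2 * (M + c + j * c) + c ∧
        dd l.length z (YY β l) ≤ 2 * (M + c + j * c) + c := by
      have t1 := dd_tri l.length z (XX β l) (YY β l)
      have t2 := dd_tri l.length z (YY β l) (XX β l)
      rw [dd_comm l.length (YY β l) (XX β l)] at t2
      have t3 := hl.2.2
      by_cases hX : 2 * (M + c + j * c) ≤ dd l.length z (XX β l)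
      · by_cases hY : 2 * (M + c + j * c) ≤ dd l.length z (YY β l)
        · exfalso
          rw [fam_far hc j _ l (M + c) (opl_lip _ hg) (hl.bound hg hM) f hf z hX hY,
            hl.far hg hM z (by linarith) (by linarith), sub_self, abs_zero] at hd
          linarith
        · constructor <;> linarith
      · constructor <;> linarith
    refine ⟨hlen, fun i hi => ?_⟩
    have hz : |z i| ≤ ‖z‖ := lp.norm_apply_le_norm (by simp) z i
    have s1 := single_le_dd hi z (XX β l)
    have s2 := single_le_dd hi z (YY β l)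
    have s3 : |XX β l i| ≤ |z i| + |z i - XX β l i| := by
      have := abs_sub (z i) (z i - XX β l i); simpa using this
    have s4 : |YY β l i| ≤ |z i| + |z i - YY β l i| := by
      have := abs_sub (z i) (z i - YY β l i); simpa using this
    constructor
    · exact entry_bound hβ (lt_of_lt_of_le hi hlen) (by
        change |XX β l i| ≤ _; linarith [hnear.1])
    · exact entry_bound hβ (lt_of_lt_of_le hi hlen) (by
        change |YY β l i| ≤ _; linarith [hnear.2])

def LL (a b : ℕ → ℤ) (n : ℕ) : List (ℤ × ℤ) := (List.range n).map fun i => (a i, b i)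

theorem LL_len (a b : ℕ → ℤ) (n : ℕ) : (LL a b n).length = n := by simp [LL]

theorem LL_get (a b : ℕ → ℤ) {n i : ℕ} (hi : i < n) : (LL a b n).getD i 0 = (a i, b i) := by
  rw [List.getD_eq_getElem _ _ (by rw [LL_len]; exact hi)]
  simp [LL]

theorem fam_norm (hβ : 0 < β) (a b : ℕ → ℤ) (X Y : ℕ → ℝ) (hX : ∀ i, X i = mu β i * a i)
    (hY : ∀ i, Y i = mu β i * b i) (hc : ∀ m, dd m X Y ≤ c) (j : ℕ) :
    ∀ (g : Z → ℝ) (n : ℕ), Lip g →
      (∀ m, n ≤ m → dd m X Y - dd n X Y ≤ β → dd m X Y - 2 * β ≤ g (pr m X) - g (pr m Y)) →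
      c ≤ dd n X Y + (j + 1) * β →
      ∃ f ∈ Fam β c j g (LL a b n), ∃ n', ∀ m, n' ≤ m →
        dd m X Y - 2 * β ≤ f (pr m X) - f (pr m Y) := by
  classical
  induction j with
  | zero =>
    intro g n _ hinv hj
    refine ⟨g, rfl, n, fun m hm => hinv m hm ?_⟩
    have := hc m
    push_cast at hj
    linarith
  | succ j ih =>
    intro g n hg hinv hj
    by_cases H : ∃ m, n ≤ m ∧ β < dd m X Y - dd n X Y
    · have h1 := Nat.find_spec H
      have h2 : n < Nat.find H := by
        rcases h1.1.lt_or_eq with h | h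
        · exact h
        · exfalso; have := h1.2; rw [← h] at this; linarith
      obtain ⟨m, hm⟩ : ∃ m, Nat.find H = m + 1 := ⟨Nat.find H - 1, by omega⟩
      have h3 : dd m X Y - dd n X Y ≤ β := by
        by_contra h4
        exact Nat.find_min H (m := m) (by omega) ⟨by omega, not_le.1 h4⟩
      rw [hm] at h1 h2
      have hXl : ∀ i < m + 1, XX β (LL a b (m + 1)) i = X i := fun i hi => by
        rw [XX, LL_get a b hi, hX]
      have hYl : ∀ i < m + 1, YY β (LL a b (m + 1)) i = Y i := fun i hi => by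
        rw [YY, LL_get a b hi, hY]
      have hch : Child β c (LL a b n) (LL a b (m + 1)) := by
        refine ⟨by rw [LL_len, LL_len]; exact h2, fun i hi => ?_, ?_⟩
        · rw [LL_len] at hi
          rw [LL_get a b hi, LL_get a b (by omega)]
        · rw [LL_len, dd_congr hXl hYl]; exact hc _
      obtain ⟨f, hf, hf2⟩ := ih (opl β (LL a b (m + 1)) g) (m + 1) (opl_lip _ hg) (by
        intro k hk hD
        have := op_gain (n := k) hg hXl hYl (hinv m (by omega) h3) hk hD
        simpa only [opl, LL_len, Nat.add_sub_cancel] using this) (by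
        have := h1.2
        push_cast at hj
        linarith)
      exact ⟨f, Or.inr ⟨_, hch, hf⟩, hf2⟩
    · refine ⟨g, Or.inl rfl, n, fun m hm => hinv m hm ?_⟩
      by_contra h
      exact H ⟨m, hm, not_le.1 h⟩

end Pool.Agent.H.MP_349fe0_an
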