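import Pool.Agent.H.MP_349fe0_an.Fam

set_option autoImplicit false

namespace Pool.Agent.H.MP_349fe0_an

open Set Filter Topology Finset

noncomputable def hh (β : ℝ) (z : Z) : ℝ := max (‖z‖ - β) 0

noncomputable def cl (β : ℝ) (z : Z) (v : ℝ) : ℝ := max (min v (hh β z)) (-hh β z)

theorem hh_nonneg (β : ℝ) (z : Z) : 0 ≤ hh β z := le_max_right _ _

theorem hh_lip (β : ℝ) : Lip (hh β) := by
  have h1 : Lip fun z => ‖z‖ - β := fun z w => by
    have := norm_sub_norm_le z w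
    simp only; linarith
  have h2 : Lip fun _ => (0 : ℝ) := fun z w => by simp
  exact h1.max h2

theorem Lip.neg {g : Z → ℝ} (hg : Lip g) : Lip fun z => -g z := fun z w => by
  have := hg w z
  rw [norm_sub_rev] at this
  simp only; linarith

theorem cl_lip (β : ℝ) {g : Z → ℝ} (hg : Lip g) : Lip fun z => cl β z (g z) :=
  (hg.min (hh_lip β)).max (hh_lip β).neg

theorem cl_cont (β : ℝ) (z : Z) : Continuous (cl β z) := by
  unfold cl; fun_prop

theorem cl_le_hh (β : ℝ) (z : Z) (v : ℝ) : |cl β z v| ≤ hh β z := by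
  have := hh_nonneg β z
  rw [abs_le]
  exact ⟨le_max_right _ _, max_le (min_le_right _ _) (by linarith)⟩

theorem cl_le_abs (β : ℝ) (z : Z) (v : ℝ) : |cl β z v| ≤ |v| := by
  have h := hh_nonneg β z
  have h1 := le_abs_self v
  have h2 := neg_abs_le v
  have h3 := abs_nonneg v
  rw [abs_le]
  exact ⟨le_trans (le_min h2 (by linarith)) (le_max_left _ _),
    max_le (le_trans (min_le_left _ _) h1) (by linarith)⟩

theorem cl_close {β : ℝ} (hβ : 0 ≤ β) (z : Z) {v : ℝ} (hv : |v| ≤ ‖z‖) : |cl β z v - v| ≤ β := by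
  have h : ‖z‖ - β ≤ hh β z := le_max_left _ _
  have h1 := abs_le.1 hv
  have h2 : v - β ≤ cl β z v := le_trans (le_min (by linarith) (by linarith)) (le_max_left _ _)
  have h3 : cl β z v ≤ v + β := max_le (le_trans (min_le_left _ _) (by linarith)) (by linarith)
  rw [abs_le]; constructor <;> linarith

theorem lip_zero : Lip fun _ => (0 : ℝ) := fun z w => by simp

/-- the family at scale 2^k -/
def FS (r : ℕ) (k : ℤ) : Set (Z → ℝ) :=
  (fun f z => cl ((2 : ℝ) ^ k / r) z (f z)) ''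
    Fam ((2 : ℝ) ^ k / r) (2 * (2 : ℝ) ^ k) (2 * r) (fun _ => 0) []

def FF (r : ℕ) : Set (Z → ℝ) := {f | f = (fun _ => 0) ∨ ∃ k, True ∧ f ∈ FS r k}

theorem FS_facts {r : ℕ} {k : ℤ} {f : Z → ℝ} (hf : f ∈ FS r k) :
    Lip f ∧ (∀ z, |f z| ≤ (2 * r : ℕ) * (2 * (2 : ℝ) ^ k)) ∧
      ∀ z, |f z| ≤ hh ((2 : ℝ) ^ k / r) z := by
  obtain ⟨g, hg, rfl⟩ := hf
  obtain ⟨h1, h2⟩ := fam_lip (by positivity) _ _ _ 0 lip_zero (fun z => by simp) g hg
  refine ⟨cl_lip _ h1, fun z => le_trans (cl_le_abs _ _ _) ?_, fun z => cl_le_hh _ _ _⟩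
  simpa using h2 z

theorem finite_scales {a b : ℝ} (ha : 0 < a) :
    {k : ℤ | a ≤ (2 : ℝ) ^ k ∧ (2 : ℝ) ^ k ≤ b}.Finite := by
  obtain ⟨n, hn⟩ := exists_mem_Ioc_zpow ha (one_lt_two (α := ℝ))
  obtain ⟨m, hm⟩ := exists_mem_Ioc_zpow (lt_max_of_lt_left ha : 0 < max a b) (one_lt_two (α := ℝ))
  refine (Set.finite_Icc n (m + 1)).subset ?_
  rintro k ⟨h1, h2⟩
  constructor
  · exact ((zpow_lt_zpow_iff_right₀ (one_lt_two (α := ℝ))).1 (lt_of_lt_of_le hn.1 h1)).le
  · exact (zpow_le_zpow_iff_right₀ (one_lt_two (α := ℝ))).1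
      (le_trans h2 (le_trans (le_max_right _ _) hm.2))

theorem FF_rep {r : ℕ} (hr : 0 < r) : Rep (2 * r + 1) (FF r) := by
  have hr' : (0 : ℝ) < r := Nat.cast_pos.2 hr
  refine rep_step (2 * r) (fun _ => 0) (fun _ : ℤ => True) (FS r) (fun k _ => ?_) ?_
  · exact (fam_rep (by positivity) (by positivity) _ _ _ 0 lip_zero (fun z => by simp)).image
      (cl ((2 : ℝ) ^ k / r)) (cl_cont _)
  · intro z δ hδ
    refine (finite_scales (a := δ / (4 * r)) (b := ‖z‖ * r) (by positivity)).subset ?_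
    rintro k ⟨-, f, hf, hd⟩
    obtain ⟨-, h2, h3⟩ := FS_facts hf
    rw [sub_zero] at hd
    constructor
    · rw [div_le_iff₀ (by positivity)]
      have := h2 z
      push_cast at this
      linarith
    · rw [← div_le_iff₀ hr']
      have h4 := le_trans hd (h3 z)
      rcases le_max_iff.1 h4 with h5 | h5
      · linarith
      · linarith

theorem FF_lip {r : ℕ} {f : Z → ℝ} (hf : f ∈ FF r) : Lip f ∧ ∀ z, |f z| ≤ ‖z‖ := by
  rcases hf with rfl | ⟨k, -, hf⟩
  · exact ⟨lip_zero, fun z => by simp⟩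
  · obtain ⟨h1, -, h3⟩ := FS_facts hf
    refine ⟨h1, fun z => le_trans (h3 z) (max_le ?_ (norm_nonneg _))⟩
    have : 0 ≤ (2 : ℝ) ^ k / r := by positivity
    linarith

theorem sum_mu {β : ℝ} (hβ : 0 < β) (m : ℕ) : ∑ i ∈ range m, mu β i ≤ β := by
  have : ∀ m : ℕ, ∑ i ∈ range m, mu β i = β - β / 2 ^ m := by
    intro m
    induction m with
    | zero => simp
    | succ m ih => rw [sum_range_succ, ih, mu]; field_simp; ring
  rw [this]
  have : 0 ≤ β / 2 ^ m := by positivity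
  linarith

theorem dd_round {β : ℝ} (hβ : 0 < β) (x : ℕ → ℝ) (m : ℕ) :
    dd m x (fun i => mu β i * (⌊x i / mu β i⌋ : ℝ)) ≤ β := by
  refine le_trans (sum_le_sum fun i _ => ?_) (sum_mu hβ m)
  have hm : 0 < mu β i := by rw [mu]; positivity
  have h1 := Int.floor_le (x i / mu β i)
  have h2 := Int.lt_floor_add_one (x i / mu β i)
  rw [le_div_iff₀ hm] at h1
  rw [div_lt_iff₀ hm] at h2
  rw [abs_le]
  constructor <;> linarith

theorem FF_norm {r : ℕ} (hr : 2 ≤ r) (x y : Z) (hxy : x ≠ y) :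
    ∃ f ∈ FF r, ‖x - y‖ * (1 - 16 / r) ≤ f x - f y := by
  have hr' : (2 : ℝ) ≤ r := by exact_mod_cast hr
  have hD : 0 < ‖x - y‖ := norm_pos_iff.2 (sub_ne_zero.2 hxy)
  obtain ⟨n, hn1, hn2⟩ := exists_mem_Ioc_zpow hD (one_lt_two (α := ℝ))
  set d : ℝ := (2 : ℝ) ^ (n + 1) with hd
  have hd2 : d ≤ 2 * ‖x - y‖ := by
    rw [hd, zpow_add_one₀ (by norm_num)]; linarith
  have hd0 : 0 < d := by positivity
  set β : ℝ := d / r with hβd
  have hβ : 0 < β := by positivity
  have hβr : β * r = d := by rw [hβd]; field_simp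
  have hβ2 : 2 * β ≤ d := by nlinarith
  let a : ℕ → ℤ := fun i => ⌊x i / mu β i⌋
  let b : ℕ → ℤ := fun i => ⌊y i / mu β i⌋
  let X : ℕ → ℝ := fun i => mu β i * a i
  let Y : ℕ → ℝ := fun i => mu β i * b i
  have hxX : ∀ m, dd m x X ≤ β := dd_round hβ x
  have hyY : ∀ m, dd m y Y ≤ β := dd_round hβ y
  have hc : ∀ m, dd m X Y ≤ 2 * d := by
    intro m
    have h1 := dd_tri m X x Y
    have h2 := dd_tri m x y Y
    have h3 := norm_sub_split m x y
    have h4 := T_nonneg m (x - y)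
    rw [dd_comm m X x] at h1
    linarith [hxX m, hyY m]
  obtain ⟨g, hg, n', hn'⟩ := fam_norm hβ a b X Y (fun _ => rfl) (fun _ => rfl) hc (2 * r)
    (fun _ => 0) 0 lip_zero (by
      intro m _ h
      have : dd 0 X Y = 0 := by simp [dd]
      simp only [sub_self]
      linarith) (by
      have : dd 0 X Y = 0 := by simp [dd]
      push_cast
      linarith)
  have hL : LL a b 0 = [] := rfl
  rw [hL] at hg
  obtain ⟨h1, -⟩ := fam_lip (by positivity) _ _ _ 0 lip_zero (fun z => by simp) g hg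
  have h0 : g 0 = 0 := by
    have h2 := fam_close _ _ _ lip_zero g hg 0
    have h3 : T ([] : List (ℤ × ℤ)).length (0 : Z) = 0 := by simp [T]
    rw [h3] at h2
    simpa using h2
  have habs : ∀ z, |g z| ≤ ‖z‖ := by
    intro z
    have h2 := h1 z 0
    have h3 := h1 0 z
    rw [h0, sub_zero, sub_zero] at h2
    rw [h0, zero_sub, zero_sub, norm_neg] at h3
    rw [abs_le]; constructor <;> linarith
  have key : ‖x - y‖ - 6 * β ≤ g x - g y := by
    have hlim : Tendsto (fun m => ‖x - y‖ - 6 * β - (T m (x - y) + T m x + T m y)) atTop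
        (𝓝 (‖x - y‖ - 6 * β - (0 + 0 + 0))) :=
      tendsto_const_nhds.sub (((T_tendsto _).add (T_tendsto _)).add (T_tendsto _))
    simp only [add_zero, sub_zero] at hlim
    refine le_of_tendsto hlim (eventually_atTop.2 ⟨n', fun m hm => ?_⟩)
    have h2 := hn' m hm
    have h3 := h1 (pr m X) x
    have h4 := h1 y (pr m Y)
    rw [norm_sub_rev, norm_sub_pr] at h3
    rw [norm_sub_pr] at h4
    have h5 := norm_sub_split m x y
    have h6 := dd_tri m x X y
    have h7 := dd_tri m X Y y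
    rw [dd_comm m Y y] at h7
    linarith [hxX m, hyY m]
  refine ⟨fun z => cl β z (g z), Or.inr ⟨n + 1, trivial, g, hg, rfl⟩, ?_⟩
  have h2 := abs_le.1 (cl_close hβ.le x (habs x))
  have h3 := abs_le.1 (cl_close hβ.le y (habs y))
  have h4 : 8 * β ≤ ‖x - y‖ * (16 / r) := by
    rw [hβd, mul_div_assoc', mul_div_assoc']
    exact div_le_div_of_nonneg_right (by linarith) (by positivity)
  simp only
  linarith

theorem main (ε : ℝ) (hε : 0 < ε) :
      ∃ f : lp (fun _ : ℕ => ℝ) 1 →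
          BoundedContinuousFunction (Set.Iic (Ordinal.omega0 ^ Ordinal.omega0 : Ordinal.{0})) ℝ,
        ∃ r : ℝ, 0 < r ∧
          ∀ x y : lp (fun _ : ℕ => ℝ) 1,
            r * dist x y ≤ dist (f x) (f y) ∧
              dist (f x) (f y) ≤ (1 + ε) * r * dist x y := by
  obtain ⟨r0, hr0⟩ := exists_nat_ge (16 * (1 + ε) / ε)
  let r : ℕ := r0 + 2
  have hr : 2 ≤ r := by omega
  have hrpos : (0 : ℝ) < r := Nat.cast_pos.2 (by omega)
  have hr1 : 16 * (1 + ε) / ε ≤ r := le_trans hr0 (Nat.cast_le.2 (by omega))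
  have hr2 : 1 / (1 + ε) ≤ 1 - 16 / (r : ℝ) := by
    rw [div_le_iff₀ hε] at hr1
    have h1 : 16 / (r : ℝ) ≤ ε / (1 + ε) := by
      rw [div_le_div_iff₀ hrpos (by positivity)]; linarith
    have h2 : 1 / (1 + ε) + ε / (1 + ε) = 1 := by field_simp
    linarith
  obtain ⟨π, hc, hm, hs⟩ := FF_rep (r := r) (by omega)
  let f : Z → BoundedContinuousFunction
      (Set.Iic (Ordinal.omega0 ^ Ordinal.omega0 : Ordinal.{0})) ℝ := fun z =>
    BoundedContinuousFunction.ofNormedAddCommGroup (fun a => π a.1 z)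
      ((hc z).comp continuous_subtype_val) ‖z‖ (fun a => (FF_lip (hm a.1)).2 z)
  have hf : ∀ z a, f z a = π a.1 z := fun _ _ => rfl
  refine ⟨f, 1 / (1 + ε), by positivity, fun x y => ⟨?_, ?_⟩⟩
  · rcases eq_or_ne x y with rfl | hxy
    · simp
    · obtain ⟨g, hg, h1⟩ := FF_norm hr x y hxy
      obtain ⟨a, -, ha1, ha2⟩ := hs g hg
      have ha3 : a ≤ Ordinal.omega0 ^ Ordinal.omega0 :=
        le_trans ha1 (Ordinal.opow_le_opow_right Ordinal.omega0_pos
          (Ordinal.natCast_lt_omega0 _).le)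
      have h2 := BoundedContinuousFunction.dist_coe_le_dist (f := f x) (g := f y) ⟨a, ha3⟩
      rw [hf, hf, Real.dist_eq] at h2
      simp only [ha2] at h2
      have h3 := le_abs_self (g x - g y)
      have h4 := mul_le_mul_of_nonneg_left hr2 (norm_nonneg (x - y))
      rw [dist_eq_norm x y]
      linarith
  · have h1 : (1 + ε) * (1 / (1 + ε)) = 1 := by field_simp
    rw [h1, one_mul, BoundedContinuousFunction.dist_le dist_nonneg]
    intro a
    rw [hf, hf, Real.dist_eq, dist_eq_norm, abs_le]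
    have h2 := (FF_lip (hm a.1)).1 x y
    have h3 := (FF_lip (hm a.1)).1 y x
    rw [norm_sub_rev] at h3
    constructor <;> linarith

end Pool.Agent.H.MP_349fe0_an
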