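import Mathlib

set_option autoImplicit false

namespace Pool.Agent.H.MP_349fe0_an

open Set Filter Topology Finset

abbrev Z : Type := lp (fun _ : ℕ => ℝ) 1

theorem hs (z : Z) : HasSum (fun i => |z i|) ‖z‖ := by
  have := lp.hasSum_norm (p := 1) (by simp) z
  simpa using this

/-- tail norm -/
noncomputable def T (m : ℕ) (z : Z) : ℝ := ∑' i, |z (i + m)|

theorem sm (m : ℕ) (z : Z) : Summable fun i => |z (i + m)| :=
  (summable_nat_add_iff (f := fun i => |z i|) m).2 (hs z).summable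

theorem norm_split (m : ℕ) (z : Z) : ∑ i ∈ range m, |z i| + T m z = ‖z‖ := by
  rw [T, (hs z).summable.sum_add_tsum_nat_add m, (hs z).tsum_eq]

theorem T_nonneg (m : ℕ) (z : Z) : 0 ≤ T m z := tsum_nonneg fun _ => abs_nonneg _

theorem T_succ (m : ℕ) (z : Z) : T m z = |z m| + T (m + 1) z := by
  have h1 := norm_split m z
  have h2 := norm_split (m + 1) z
  rw [sum_range_succ] at h2
  linarith

theorem T_anti {m n : ℕ} (h : m ≤ n) (z : Z) : T n z ≤ T m z := by
  induction n, h using Nat.le_induction with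
  | base => exact le_rfl
  | succ k _ ih => have := T_succ k z; have := abs_nonneg (z k); linarith

theorem T_tendsto (z : Z) : Tendsto (fun m => T m z) atTop (𝓝 0) :=
  tendsto_sum_nat_add fun i => |z i|

theorem T_tri (m : ℕ) (z w : Z) : T m z ≤ T m w + T m (z - w) := by
  rw [T, T, T, ← (sm m w).tsum_add (sm m (z - w))]
  refine (sm m z).tsum_le_tsum (fun i => ?_) ((sm m w).add (sm m (z - w)))
  have : (z - w) (i + m) = z (i + m) - w (i + m) := rfl
  rw [this]
  have := abs_sub_abs_le_abs_sub (z (i + m)) (w (i + m))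
  linarith

theorem T_neg (m : ℕ) (z w : Z) : T m (z - w) = T m (w - z) := by
  simp only [T]
  refine tsum_congr fun i => ?_
  have h1 : (z - w) (i + m) = z (i + m) - w (i + m) := rfl
  have h2 : (w - z) (i + m) = w (i + m) - z (i + m) := rfl
  rw [h1, h2, abs_sub_comm]

/-- truncation -/
noncomputable def pr (m : ℕ) (X : ℕ → ℝ) : Z :=
  ⟨fun i => if i < m then X i else 0, by
    refine (memℓp_zero ?_).of_exponent_ge (by simp)
    refine (Set.finite_lt_nat m).subset fun i hi => ?_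
    by_contra h
    exact hi (if_neg h)⟩

theorem pr_apply (m : ℕ) (X : ℕ → ℝ) (i : ℕ) : pr m X i = if i < m then X i else 0 := rfl

/-- distance in the first m coordinates -/
noncomputable def dd (m : ℕ) (X Y : ℕ → ℝ) : ℝ := ∑ i ∈ range m, |X i - Y i|

theorem dd_nonneg (m : ℕ) (X Y : ℕ → ℝ) : 0 ≤ dd m X Y := sum_nonneg fun _ _ => abs_nonneg _

theorem dd_succ (m : ℕ) (X Y : ℕ → ℝ) : dd (m + 1) X Y = dd m X Y + |X m - Y m| :=
  sum_range_succ _ _

theorem dd_mono {m n : ℕ} (h : m ≤ n) (X Y : ℕ → ℝ) : dd m X Y ≤ dd n X Y :=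
  sum_le_sum_of_subset_of_nonneg (range_mono h) fun _ _ _ => abs_nonneg _

theorem dd_tri (m : ℕ) (X Y W : ℕ → ℝ) : dd m X W ≤ dd m X Y + dd m Y W := by
  rw [dd, dd, dd, ← sum_add_distrib]
  exact sum_le_sum fun i _ => abs_sub_le _ _ _

theorem dd_comm (m : ℕ) (X Y : ℕ → ℝ) : dd m X Y = dd m Y X :=
  sum_congr rfl fun i _ => abs_sub_comm _ _

theorem dd_congr {m : ℕ} {X Y X' Y' : ℕ → ℝ} (h1 : ∀ i < m, X i = X' i) (h2 : ∀ i < m, Y i = Y' i) :
    dd m X Y = dd m X' Y' :=
  sum_congr rfl fun i hi => by rw [h1 i (mem_range.1 hi), h2 i (mem_range.1 hi)]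

theorem norm_sub_split (m : ℕ) (z w : Z) : dd m z w + T m (z - w) = ‖z - w‖ :=
  norm_split m (z - w)

theorem norm_sub_pr (m : ℕ) (z : Z) (X : ℕ → ℝ) : ‖z - pr m X‖ = dd m z X + T m z := by
  rw [← norm_sub_split m]
  have h1 : dd m z (pr m X) = dd m z X :=
    dd_congr (fun _ _ => rfl) fun i hi => by rw [pr_apply, if_pos hi]
  have h2 : T m (z - pr m X) = T m z := by
    refine tsum_congr fun i => ?_
    have : (z - pr m X) (i + m) = z (i + m) - pr m X (i + m) := rfl
    rw [this, pr_apply, if_neg (by omega), sub_zero]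
  rw [h1, h2]

theorem T_pr_self (m : ℕ) (X : ℕ → ℝ) : T m (pr m X) = 0 := by
  have : ∀ i, |pr m X (i + m)| = 0 := fun i => by rw [pr_apply, if_neg (by omega), abs_zero]
  simp only [T, this, tsum_zero]

theorem norm_pr_sub (m : ℕ) (X Y : ℕ → ℝ) : ‖pr m X - pr m Y‖ = dd m X Y := by
  rw [norm_sub_pr, T_pr_self, add_zero]
  exact dd_congr (fun i hi => by rw [pr_apply, if_pos hi]) fun _ _ => rfl

theorem T_pr {m n : ℕ} (h : m ≤ n) (X : ℕ → ℝ) :
    T m (pr n X) = dd n X 0 - dd m X 0 := by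
  have h1 := norm_split m (pr n X)
  have h2 := norm_split n (pr n X)
  rw [T_pr_self] at h2
  have h3 : ∑ i ∈ range m, |pr n X i| = dd m X 0 :=
    sum_congr rfl fun i hi => by
      rw [pr_apply, if_pos (lt_of_lt_of_le (mem_range.1 hi) h)]; simp
  have h4 : ∑ i ∈ range n, |pr n X i| = dd n X 0 :=
    sum_congr rfl fun i hi => by rw [pr_apply, if_pos (mem_range.1 hi)]; simp
  linarith

theorem dd_diff {m n : ℕ} (h : m ≤ n) (X Y : ℕ → ℝ) :
    dd n X Y - dd m X Y ≤ (dd n X 0 - dd m X 0) + (dd n Y 0 - dd m Y 0) := by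
  induction n, h using Nat.le_induction with
  | base => simp
  | succ k _ ih =>
    rw [dd_succ, dd_succ, dd_succ]
    have := abs_sub (X k) (Y k)
    simp only [Pi.zero_apply, sub_zero]
    linarith

def Lip (g : Z → ℝ) : Prop := ∀ z w, g z - g w ≤ ‖z - w‖

noncomputable def al (s t : ℝ) : ℝ := min |s| |s - t|

noncomputable def ga (m : ℕ) (X Y : ℕ → ℝ) (g : Z → ℝ) : ℝ :=
  (dd m X Y - (g (pr m X) - g (pr m Y))) / 2

noncomputable def up (m : ℕ) (X Y : ℕ → ℝ) (g : Z → ℝ) (z : Z) : ℝ :=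
  g (pr m X) + al (X m) (Y m) + min (T (m + 1) z) (ga m X Y g) - dd (m + 1) z X

noncomputable def lo (m : ℕ) (X Y : ℕ → ℝ) (g : Z → ℝ) (z : Z) : ℝ :=
  g (pr m Y) - (|X m - Y m| - al (X m) (Y m)) - min (T (m + 1) z) (ga m X Y g) + dd (m + 1) z Y

noncomputable def op (m : ℕ) (X Y : ℕ → ℝ) (g : Z → ℝ) (z : Z) : ℝ :=
  min (max (g z) (up m X Y g z)) (lo m X Y g z)

theorem al_facts (s t : ℝ) : 0 ≤ al s t ∧ al s t ≤ |s| ∧ al s t ≤ |s - t| ∧
    |s - t| - al s t ≤ |t| := by
  refine ⟨le_min (abs_nonneg _) (abs_nonneg _), min_le_left _ _, min_le_right _ _, ?_⟩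
  have h1 := abs_sub s t
  have h2 := abs_nonneg t
  rcases le_total |s| |s - t| with h | h
  · rw [al, min_eq_left h]; linarith
  · rw [al, min_eq_right h]; linarith

theorem ga_facts {m : ℕ} {X Y : ℕ → ℝ} {g : Z → ℝ} (hg : Lip g) :
    0 ≤ ga m X Y g ∧ ga m X Y g ≤ dd m X Y := by
  have h1 := hg (pr m X) (pr m Y)
  have h2 := hg (pr m Y) (pr m X)
  rw [norm_pr_sub] at h1 h2
  rw [dd_comm] at h2
  constructor <;> rw [ga] <;> linarith

theorem min_lip (a b c : ℝ) (e : ℝ) (he : 0 ≤ e) (h : a ≤ b + e) : min a c ≤ min b c + e := by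
  rcases le_total b c with h1 | h1
  · rw [min_eq_left h1]; exact le_trans (min_le_left _ _) h
  · rw [min_eq_right h1]; exact le_trans (min_le_right _ _) (by linarith)

theorem up_lip (m : ℕ) (X Y : ℕ → ℝ) (g : Z → ℝ) : Lip (up m X Y g) := by
  intro z w
  have h1 := min_lip _ _ (ga m X Y g) _ (T_nonneg _ _) (T_tri (m + 1) z w)
  have h2 := dd_tri (m + 1) w z X
  have h3 := norm_sub_split (m + 1) z w
  rw [dd_comm (m + 1) w z] at h2
  simp only [up]
  linarith

theorem lo_lip (m : ℕ) (X Y : ℕ → ℝ) (g : Z → ℝ) : Lip (lo m X Y g) := by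
  intro z w
  have h1 := min_lip _ _ (ga m X Y g) _ (T_nonneg _ _) (T_tri (m + 1) w z)
  have h2 := dd_tri (m + 1) z w Y
  have h3 := norm_sub_split (m + 1) z w
  rw [T_neg] at h1
  simp only [lo]
  linarith

theorem Lip.max {f g : Z → ℝ} (hf : Lip f) (hg : Lip g) : Lip fun z => max (f z) (g z) := by
  intro z w
  have h1 := hf z w
  have h2 := hg z w
  have h3 := le_max_left (f w) (g w)
  have h4 := le_max_right (f w) (g w)
  have : Max.max (f z) (g z) ≤ Max.max (f w) (g w) + ‖z - w‖ := max_le (by linarith) (by linarith)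
  simp only
  linarith

theorem Lip.min {f g : Z → ℝ} (hf : Lip f) (hg : Lip g) : Lip fun z => min (f z) (g z) := by
  intro z w
  have h1 := hf z w
  have h2 := hg z w
  have h3 := min_le_left (f z) (g z)
  have h4 := min_le_right (f z) (g z)
  have : Min.min (f z) (g z) - ‖z - w‖ ≤ Min.min (f w) (g w) := le_min (by linarith) (by linarith)
  simp only
  linarith

theorem op_lip {m : ℕ} {X Y : ℕ → ℝ} {g : Z → ℝ} (hg : Lip g) : Lip (op m X Y g) :=
  (hg.max (up_lip m X Y g)).min (lo_lip m X Y g)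

theorem op_close {m : ℕ} {X Y : ℕ → ℝ} {g : Z → ℝ} (hg : Lip g) (z : Z) :
    |op m X Y g z - g z| ≤ 2 * T m z := by
  obtain ⟨a1, a2, a3, a4⟩ := al_facts (X m) (Y m)
  have h1 := hg (pr m X) z
  have h2 := hg z (pr m Y)
  rw [norm_sub_rev, norm_sub_pr] at h1
  rw [norm_sub_pr] at h2
  have h3 := T_succ m z
  have h4 := min_le_left (T (m + 1) z) (ga m X Y g)
  have h5 := dd_succ m z X
  have h6 := dd_succ m z Y
  have h7 : |X m| ≤ |z m| + |z m - X m| := by
    have := abs_sub (z m) (z m - X m); simpa using this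
  have h8 : |Y m| ≤ |z m| + |z m - Y m| := by
    have := abs_sub (z m) (z m - Y m); simpa using this
  have h9 := T_nonneg m z
  have hu : up m X Y g z ≤ g z + 2 * T m z := by simp only [up]; linarith
  have hl : g z - 2 * T m z ≤ lo m X Y g z := by simp only [lo]; linarith
  rw [abs_le]
  constructor
  · have : g z - 2 * T m z ≤ op m X Y g z :=
      le_min (le_trans (by linarith) (le_max_left _ _)) hl
    linarith
  · have : op m X Y g z ≤ g z + 2 * T m z :=
      le_trans (min_le_left _ _) (max_le (by linarith) hu)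
    linarith

theorem up_le {m : ℕ} {X Y : ℕ → ℝ} {g : Z → ℝ} (hg : Lip g) {M : ℝ} (hM : ∀ z, |g z| ≤ M) (z : Z) :
    up m X Y g z ≤ M + dd (m + 1) X Y - dd (m + 1) z X := by
  obtain ⟨a1, a2, a3, a4⟩ := al_facts (X m) (Y m)
  obtain ⟨g1, g2⟩ := ga_facts (m := m) (X := X) (Y := Y) hg
  have h4 := min_le_right (T (m + 1) z) (ga m X Y g)
  have h5 := dd_succ m X Y
  have h6 := (abs_le.1 (hM (pr m X))).2
  simp only [up]; linarith

theorem le_lo {m : ℕ} {X Y : ℕ → ℝ} {g : Z → ℝ} (hg : Lip g) {M : ℝ} (hM : ∀ z, |g z| ≤ M) (z : Z) :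
    -M - dd (m + 1) X Y + dd (m + 1) z Y ≤ lo m X Y g z := by
  obtain ⟨a1, a2, a3, a4⟩ := al_facts (X m) (Y m)
  obtain ⟨g1, g2⟩ := ga_facts (m := m) (X := X) (Y := Y) hg
  have h4 := min_le_right (T (m + 1) z) (ga m X Y g)
  have h5 := dd_succ m X Y
  have h6 := (abs_le.1 (hM (pr m Y))).1
  simp only [lo]; linarith

theorem op_bound {m : ℕ} {X Y : ℕ → ℝ} {g : Z → ℝ} (hg : Lip g) {M : ℝ} (hM : ∀ z, |g z| ≤ M)
    {c : ℝ} (hc : dd (m + 1) X Y ≤ c) (z : Z) : |op m X Y g z| ≤ M + c := by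
  have h1 := up_le (m := m) (X := X) (Y := Y) hg hM z
  have h2 := le_lo (m := m) (X := X) (Y := Y) hg hM z
  have h3 := dd_nonneg (m + 1) z X
  have h4 := dd_nonneg (m + 1) z Y
  have h5 := dd_nonneg (m + 1) X Y
  have h6 := abs_le.1 (hM z)
  rw [abs_le]
  constructor
  · exact le_min (le_trans (by linarith) (le_max_left _ _)) (by linarith)
  · exact le_trans (min_le_left _ _) (max_le (by linarith) (by linarith))

theorem op_far {m : ℕ} {X Y : ℕ → ℝ} {g : Z → ℝ} (hg : Lip g) {M : ℝ} (hM : ∀ z, |g z| ≤ M)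
    {c : ℝ} (hc : dd (m + 1) X Y ≤ c) (z : Z) (hX : 2 * M + c ≤ dd (m + 1) z X)
    (hY : 2 * M + c ≤ dd (m + 1) z Y) : op m X Y g z = g z := by
  have h1 := up_le (m := m) (X := X) (Y := Y) hg hM z
  have h2 := le_lo (m := m) (X := X) (Y := Y) hg hM z
  have h6 := abs_le.1 (hM z)
  rw [op, max_eq_left (by linarith), min_eq_left (by linarith)]

theorem op_gain {m n : ℕ} {X Y X' Y' : ℕ → ℝ} {g : Z → ℝ} (hg : Lip g) {β : ℝ}
    (hX : ∀ i < m + 1, X' i = X i) (hY : ∀ i < m + 1, Y' i = Y i)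
    (hinv : dd m X Y - 2 * β ≤ g (pr m X) - g (pr m Y)) (hn : m + 1 ≤ n)
    (hD : dd n X Y - dd (m + 1) X Y ≤ β) :
    dd n X Y - 2 * β ≤ op m X' Y' g (pr n X) - op m X' Y' g (pr n Y) := by
  have e1 : pr m X' = pr m X := by
    ext i; rw [pr_apply, pr_apply]; split_ifs with h
    · exact hX i (by omega)
    · rfl
  have e2 : pr m Y' = pr m Y := by
    ext i; rw [pr_apply, pr_apply]; split_ifs with h
    · exact hY i (by omega)
    · rfl
  have e3 : X' m = X m := hX m (by omega)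
  have e4 : Y' m = Y m := hY m (by omega)
  have e5 : dd m X' Y' = dd m X Y :=
    dd_congr (fun i hi => hX i (by omega)) fun i hi => hY i (by omega)
  have e6 : dd (m + 1) (pr n X) X' = 0 := by
    refine sum_eq_zero fun i hi => ?_
    have := mem_range.1 hi
    rw [pr_apply, if_pos (by omega), hX i this, sub_self, abs_zero]
  have e7 : dd (m + 1) (pr n Y) Y' = 0 := by
    refine sum_eq_zero fun i hi => ?_
    have := mem_range.1 hi
    rw [pr_apply, if_pos (by omega), hY i this, sub_self, abs_zero]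
  have e8 : dd (m + 1) (pr n X) Y' = dd (m + 1) X Y :=
    dd_congr (fun i hi => by rw [pr_apply, if_pos (by omega)]) hY
  have e9 : ga m X' Y' g = (dd m X Y - (g (pr m X) - g (pr m Y))) / 2 := by
    rw [ga, e1, e2, e5]
  obtain ⟨g1, g2⟩ := ga_facts (m := m) (X := X') (Y := Y') hg
  have h5 := dd_succ m X Y
  have h6 := dd_diff hn X Y
  rw [← T_pr hn, ← T_pr hn] at h6
  have hu : up m X' Y' g (pr n X) ≤ op m X' Y' g (pr n X) := by
    refine le_min (le_max_right _ _) ?_
    have h4 := min_le_right (T (m + 1) (pr n X)) (ga m X' Y' g)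
    simp only [up, lo, e1, e2, e3, e4, e6, e8]
    linarith
  have hl : op m X' Y' g (pr n Y) ≤ lo m X' Y' g (pr n Y) := min_le_right _ _
  simp only [up, lo, e1, e2, e3, e4, e6, e7] at hu hl
  have t1 := T_nonneg (m + 1) (pr n X)
  have t2 := T_nonneg (m + 1) (pr n Y)
  rcases le_total (T (m + 1) (pr n X)) (ga m X' Y' g) with c1 | c1 <;>
  rcases le_total (T (m + 1) (pr n Y)) (ga m X' Y' g) with c2 | c2
  · rw [min_eq_left c1] at hu; rw [min_eq_left c2] at hl; linarith
  · rw [min_eq_left c1] at hu; rw [min_eq_right c2] at hl; linarith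
  · rw [min_eq_right c1] at hu; rw [min_eq_left c2] at hl; linarith
  · rw [min_eq_right c1] at hu; rw [min_eq_right c2] at hl; linarith

end Pool.Agent.H.MP_349fe0_an
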